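import Pool.Agent.CochExt.Raw

set_option autoImplicit false

/-!
# Cochain extension operators (MP_2c7c64_an, Q1)

For every bounded Lipschitz open set `Ω ⊆ ℝⁿ`, every open set `K` containing `Ω` and every `m`
there is an admissible family of extension operators
`E k : H^{(m,m)}Λ^k(Ω) ∩ 𝔥^k(Ω)^⊥ → H^{(m,m)}Λ^k(K)`: linear, bounded, extending forms from `Ω` to
`K`, and commuting with the exterior derivative.
-/

open Pool.Agent.CochExt

namespace Pool.Agent.Results.MP_2c7c64_an.CochainExtension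

theorem result (n m : ℕ) (Ω K : Set (Eu n)) (hΩ : IsLip Ω) (_hK : IsOpen K) (_hΩK : Ω ⊆ K) :
    ∃ E : ℕ → RF n → RF n, AdmFam m Ω K E := by
  obtain ⟨E, C, -, -, hE, -⟩ := raw_core m hΩ isOpen_univ (Set.subset_univ _)
  exact ⟨E, raw_restrict hE⟩

end Pool.Agent.Results.MP_2c7c64_an.CochainExtension
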