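import Pool.Agent.CochExt.Raw

set_option autoImplicit false

/-!
# Cochain extension operators with compact support (MP_2c7c64_an, Q2)

For a bounded Lipschitz open set `Ω ⊆ ℝⁿ`, an open set `K` containing the closure of `Ω` and every
`m` there are a compact set `C ⊆ K` and linear operators `E k` which are an admissible family from
`Ω` to `K` and an admissible family from `Ω` to `ℝⁿ`, and whose values vanish outside `C`; so on
`K` the values of `E k` have support in `C`, and the values on `ℝⁿ` are the extensions by zero of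
the values on `K`.
-/

open Pool.Agent.CochExt

namespace Pool.Agent.Results.MP_2c7c64_an.CompactSupport

theorem result (n m : ℕ) (Ω K : Set (Eu n)) (hΩ : IsLip Ω) (hK : IsOpen K)
    (hΩK : closure Ω ⊆ K) :
    ∃ (E : ℕ → RF n → RF n) (C : Set (Eu n)), IsCompact C ∧ C ⊆ K ∧
      AdmFam m Ω K E ∧ AdmFam m Ω Set.univ E ∧
      ∀ (k : ℕ) (w : RF n), InDom m k Ω w → ∀ S : Finset (Fin n), AeOn Cᶜ (E k w S) 0 := by
  obtain ⟨E, C, hC, hCK, hE, hE'⟩ := raw_core m hΩ hK hΩK
  exact ⟨E, C, hC, hCK, raw_restrict hE, hE, hE'⟩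

end Pool.Agent.Results.MP_2c7c64_an.CompactSupport
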